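import Mathlib
import Pool.Agent.Helper24.Seg.Basic

/-!
# P3b of MP_e9c934_an: the global Lipschitz map of a complex of tetrahedra filling `ℝ³ \ {0}`
-/

open Set Filter Topology Module

namespace Seg

lemma continuous_N (a : Fin 4 → E3) (j : Fin 4) : Continuous (N a j) := by
  have : N a j = NA a j := rfl
  rw [this]
  exact (NA a j).continuous_of_finiteDimensional

lemma isClosed_cell (a : Fin 4 → E3) : IsClosed (cell a) := by
  have : cell a = ⋂ j, {x | 0 ≤ N a j x} := by
    ext x; simp [cell]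
  rw [this]
  exact isClosed_iInter fun j => isClosed_le continuous_const (continuous_N a j)

lemma bary_smul {a : Fin 4 → E3} (ha : 0 < V4 a) (x : E3) :
    ∑ j, (N a j x / V4 a) • a j = x := by
  have h := N_sum_smul a x
  have h2 : (V4 a)⁻¹ • (∑ j, N a j x • a j) = (V4 a)⁻¹ • (V4 a • x) := by rw [h]
  rw [smul_smul, inv_mul_cancel₀ ha.ne', one_smul, Finset.smul_sum] at h2
  refine Eq.trans (Finset.sum_congr rfl fun j _ => ?_) h2
  rw [smul_smul, div_eq_inv_mul]

lemma bary_sum {a : Fin 4 → E3} (ha : 0 < V4 a) (x : E3) :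
    ∑ j, (N a j x / V4 a) = 1 := by
  rw [← Finset.sum_div, N_sum, div_self ha.ne']

/-- centroid -/
noncomputable def cen (a : Fin 4 → E3) : E3 := (1 / 4 : ℝ) • (a 0 + a 1 + a 2 + a 3)

lemma N_cen (a : Fin 4 → E3) (j : Fin 4) : N a j (cen a) = V4 a / 4 := by
  fin_cases j <;> simp [N0, N1, N2, N3, V4, vol, cen] <;> ring

/-- `N` of an affine combination -/
lemma N_comb (a : Fin 4 → E3) (j : Fin 4) (w : Fin 4 → ℝ) (hw : ∑ k, w k = 1) (p : Fin 4 → E3) :
    N a j (∑ k, w k • p k) = ∑ k, w k * N a j (p k) := by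
  have h0 : w 0 = 1 - w 1 - w 2 - w 3 := by
    rw [Fin.sum_univ_four] at hw; linarith
  simp only [Fin.sum_univ_four, h0]
  fin_cases j <;> simp [N0, N1, N2, N3, vol] <;> ring

/-- the line through two vertices -/
noncomputable def lineS (p q : E3) : AffineSubspace ℝ E3 :=
  AffineSubspace.mk' p (Submodule.span ℝ {q - p})

lemma finrank_lineS (p q : E3) : finrank ℝ (lineS p q).direction + 2 ≤ finrank ℝ E3 := by
  rw [lineS, AffineSubspace.direction_mk']
  have h1 : finrank ℝ (Submodule.span ℝ {q - p}) ≤ 1 := by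
    have := finrank_span_le_card (R := ℝ) ({q - p} : Set E3)
    simpa using this
  have h3 : finrank ℝ E3 = 3 := by simp
  omega

noncomputable def pointS (p : E3) : AffineSubspace ℝ E3 := AffineSubspace.mk' p ⊥

lemma finrank_pointS (p : E3) : finrank ℝ (pointS p).direction + 2 ≤ finrank ℝ E3 := by
  rw [pointS, AffineSubspace.direction_mk']
  have h3 : finrank ℝ E3 = 3 := by simp
  rw [finrank_bot]
  omega

lemma exists_edge {a : Fin 4 → E3} (ha : 0 < V4 a) {j j' : Fin 4} (hj : j ≠ j') {x : E3}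
    (h : N a j x = 0) (h' : N a j' x = 0) : ∃ k k', x ∈ lineS (a k) (a k') := by
  have hdec : ∀ j j' : Fin 4, j ≠ j' → ∃ k k' : Fin 4, k ≠ k' ∧ j ≠ k ∧ j ≠ k' ∧ j' ≠ k ∧ j' ≠ k' ∧
      ∀ l, l = j ∨ l = j' ∨ l = k ∨ l = k' := by decide
  obtain ⟨k, k', hkk, hjk, hjk', hj'k, hj'k', hall⟩ := hdec j j' hj
  have huniv : (Finset.univ : Finset (Fin 4)) = {j, j', k, k'} := by
    ext l; simpa using hall l
  have hs := bary_smul ha x
  have hw := bary_sum ha x
  rw [huniv, Finset.sum_insert (by simp [hj, hjk, hjk']), Finset.sum_insert (by simp [hj'k, hj'k']),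
    Finset.sum_insert (by simp [hkk]), Finset.sum_singleton, h, h'] at hs hw
  simp only [zero_div, zero_smul, zero_add] at hs hw
  refine ⟨k, k', ?_⟩
  rw [lineS, AffineSubspace.mem_mk', Submodule.mem_span_singleton]
  refine ⟨N a k' x / V4 a, ?_⟩
  rw [vsub_eq_sub]
  have hk : N a k x / V4 a = 1 - N a k' x / V4 a := by linarith
  nth_rw 2 [← hs]
  rw [hk]
  module

/-- the facet of `i` opposite to `j` as seen from the neighbour -/
lemma facet_N {ι : Type} (C : Cplx ι) (i : ι) (j : Fin 4) (x : E3) (hx : N (C.a i) j x = 0)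
    (k : Fin 4) (hk : k ≠ j) :
    N (C.a (C.σ i j).1) (C.π i j k) x = N (C.a i) k x / V4 (C.a i) * V4 (C.a (C.σ i j).1) := by
  have hs := bary_smul (C.ha i) x
  have hw := bary_sum (C.ha i) x
  conv_lhs => rw [← hs]
  rw [N_comb _ _ _ hw, Finset.sum_eq_single k]
  · rw [← C.hπa i j k hk, N_self]
  · intro l _ hl
    by_cases hlj : l = j
    · subst hlj
      rw [hx]; simp
    · rw [← C.hπa i j l hlj, N_other, mul_zero]
      intro hh
      apply hl
      rw [← C.hπ2 i j l hlj, ← C.hπ2 i j k hk, hh]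
  · simp

lemma pi_surj {ι : Type} (C : Cplx ι) (i : ι) (j j' : Fin 4) (h : j' ≠ (C.σ i j).2) :
    ∃ k, k ≠ j ∧ C.π i j k = j' := by
  refine ⟨C.π (C.σ i j).1 (C.σ i j).2 j', ?_, ?_⟩
  · have := C.hπ1 (C.σ i j).1 (C.σ i j).2 j' h
    rwa [C.hσ2] at this
  · have := C.hπ2 (C.σ i j).1 (C.σ i j).2 j' h
    rwa [C.hσ2] at this

lemma facet_cell {ι : Type} (C : Cplx ι) (i : ι) (j : Fin 4) (x : E3) (hx : N (C.a i) j x = 0)
    (hc : ∀ k, 0 ≤ N (C.a i) k x) (j' : Fin 4) : 0 ≤ N (C.a (C.σ i j).1) j' x := by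
  by_cases h : j' = (C.σ i j).2
  · subst h
    rw [C.hσa, hx]; simp
  · obtain ⟨k, hk, rfl⟩ := pi_surj C i j j' h
    rw [facet_N C i j x hx k hk]
    exact mul_nonneg (div_nonneg (hc k) (C.ha i).le) (C.ha _).le

lemma facet_amap {ι : Type} (C : Cplx ι) (i : ι) (j : Fin 4) (x : E3) (hx : N (C.a i) j x = 0) :
    amap (C.a i) (C.b i) x = amap (C.a (C.σ i j).1) (C.b (C.σ i j).1) x := by
  unfold amap
  rw [Finset.smul_sum, Finset.smul_sum]
  have h1 : ∑ k, (V4 (C.a i))⁻¹ • N (C.a i) k x • C.b i k =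
      ∑ k ∈ Finset.univ.erase j, (V4 (C.a i))⁻¹ • N (C.a i) k x • C.b i k := by
    rw [← Finset.add_sum_erase _ _ (Finset.mem_univ j), hx]; simp
  have h2 : ∑ k, (V4 (C.a (C.σ i j).1))⁻¹ • N (C.a (C.σ i j).1) k x • C.b (C.σ i j).1 k =
      ∑ k ∈ Finset.univ.erase (C.σ i j).2,
        (V4 (C.a (C.σ i j).1))⁻¹ • N (C.a (C.σ i j).1) k x • C.b (C.σ i j).1 k := by
    rw [← Finset.add_sum_erase _ _ (Finset.mem_univ (C.σ i j).2), C.hσa, hx]; simp
  rw [h1, h2]
  refine Finset.sum_bij (fun k _ => C.π i j k) ?_ ?_ ?_ ?_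
  · intro k hk
    simp only [Finset.mem_erase, Finset.mem_univ, and_true] at hk ⊢
    exact C.hπ1 i j k hk
  · intro k hk l hl h
    simp only [Finset.mem_erase, Finset.mem_univ, and_true] at hk hl
    rw [← C.hπ2 i j l hl, ← C.hπ2 i j k hk, h]
  · intro j' hj'
    simp only [Finset.mem_erase, Finset.mem_univ, and_true] at hj'
    obtain ⟨k, hk, h⟩ := pi_surj C i j j' hj'
    exact ⟨k, by simpa using hk, h⟩
  · intro k hk
    simp only [Finset.mem_erase, Finset.mem_univ, and_true] at hk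
    rw [facet_N C i j x hx k hk, C.hπb i j k hk, smul_smul, smul_smul]
    congr 1
    have := (C.ha (C.σ i j).1).ne'
    field_simp

/-- generic points are dense -/
lemma exists_generic {κ : Type} [Countable κ] (S : κ → AffineSubspace ℝ E3)
    (hS : ∀ k, finrank ℝ (S k).direction + 2 ≤ finrank ℝ E3) (U : Set E3) (hU : IsOpen U)
    (hne : U.Nonempty) : ∃ x ∈ U, ∀ k, x ∉ S k := by
  by_contra hcon
  push Not at hcon
  have h0 : MeasureTheory.volume (⋃ k, (S k : Set E3)) = 0 := by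
    rw [MeasureTheory.measure_iUnion_null_iff]
    intro k
    refine MeasureTheory.Measure.addHaar_affineSubspace _ _ ?_
    intro htop
    have := hS k
    rw [htop, AffineSubspace.direction_top, finrank_top] at this
    omega
  have h1 : U ⊆ ⋃ k, (S k : Set E3) := by
    intro x hx
    obtain ⟨k, hk⟩ := hcon x hx
    exact mem_iUnion.2 ⟨k, hk⟩
  have h2 := MeasureTheory.measure_mono_null h1 h0
  exact (hU.measure_pos MeasureTheory.volume hne).ne' h2

theorem global (hG : Seg.GlueStatement) : Seg.GlobalStatement := by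
  intro ι _ C hfin h0 htest L hL
  let S : Option (ι × Fin 4 × Fin 4) → AffineSubspace ℝ E3 := fun o =>
    match o with
    | none => pointS 0
    | some (i, k, k') => lineS (C.a i k) (C.a i k')
  have hS : ∀ k, finrank ℝ (S k).direction + 2 ≤ finrank ℝ E3 := by
    intro k
    rcases k with _ | ⟨i, k, k'⟩
    · exact finrank_pointS 0
    · exact finrank_lineS _ _
  have hSne : ∀ x, (∀ k, x ∉ S k) → x ≠ 0 := by
    rintro x hx rfl
    apply hx none
    show (0 : E3) ∈ pointS 0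
    simp [pointS]
  -- generic test point
  have htest' : ∃ x₀ : E3, (∀ k, x₀ ∉ S k) ∧
      ∃! i, ∀ j, (fun (_ : ι) (_ : Fin 4) => True) i j → 0 ≤ (fun i j => NA (C.a i) j) i j x₀ := by
    obtain ⟨x₀, i₀, hpos, huniq⟩ := htest
    have hx0 : x₀ ≠ 0 := by
      rintro rfl
      exact h0 i₀ (fun j => (hpos j).le)
    obtain ⟨U, hU, hUfin⟩ := hfin x₀ hx0
    set T : Set ι := {i | (cell (C.a i) ∩ U).Nonempty} with hT
    have hclosed : IsClosed (⋃ i ∈ T \ {i₀}, cell (C.a i)) :=
      (hUfin.subset sdiff_subset).isClosed_biUnion fun i _ => isClosed_cell _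
    have hopen : IsOpen ({x | ∀ j, 0 < N (C.a i₀) j x}) := by
      have : {x | ∀ j, 0 < N (C.a i₀) j x} = ⋂ j, {x | 0 < N (C.a i₀) j x} := by ext x; simp
      rw [this]
      exact isOpen_iInter_of_finite fun j => isOpen_lt continuous_const (continuous_N _ j)
    let W : Set E3 := interior U ∩ ({x | ∀ j, 0 < N (C.a i₀) j x} ∩
      (⋃ i ∈ T \ {i₀}, cell (C.a i))ᶜ)
    have hW : IsOpen W := isOpen_interior.inter (hopen.inter hclosed.isOpen_compl)
    have hWne : W.Nonempty := by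
      refine ⟨x₀, mem_interior_iff_mem_nhds.2 hU, hpos, ?_⟩
      simp only [mem_compl_iff, mem_iUnion, not_exists]
      rintro i ⟨_, hi⟩ hc
      exact hi (huniq i hc)
    obtain ⟨x, ⟨hxU, hxpos, hxT⟩, hxS⟩ := exists_generic S hS W hW hWne
    refine ⟨x, hxS, i₀, fun j _ => (hxpos j).le, ?_⟩
    intro i hi
    by_contra hne
    apply hxT
    simp only [mem_iUnion]
    have hc : x ∈ cell (C.a i) := fun j => hi j trivial
    exact ⟨i, ⟨⟨x, hc, interior_subset hxU⟩, hne⟩, hc⟩
  obtain ⟨x₀, hx₀, hx₀u⟩ := htest'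
  obtain ⟨hA, hB, hCC⟩ := hG (V := E3) (F := E3) (ι := ι) (J := Fin 4) S hS (fun _ _ => True)
    (fun i j => NA (C.a i) j)
    (by
      intro i
      refine ⟨cen (C.a i), fun j _ => ?_⟩
      have := C.ha i
      rw [NA_apply, N_cen]; positivity)
    (by
      intro i j j' _ _ hj x hx hx'
      obtain ⟨k, k', hk⟩ := exists_edge (C.ha i) hj hx hx'
      exact ⟨some (i, k, k'), hk⟩)
    (by
      intro x hx
      obtain ⟨U, hU, hUf⟩ := hfin x (hSne x hx)
      refine ⟨U, hU, hUf.subset ?_⟩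
      rintro i ⟨y, hy, hc⟩
      exact ⟨y, fun j => hc j trivial, hy⟩)
    C.σ (fun _ _ _ => trivial) (fun i j _ => C.hσ1 i j) (fun i j _ => C.hσ2 i j)
    (by
      intro i j _
      refine ⟨1, one_pos, fun x => ?_⟩
      simp only [NA_apply]
      rw [C.hσa]; ring)
    (by
      intro i j x _ hx hc j' _
      exact facet_cell C i j x hx (fun k => hc k trivial) j')
    x₀ hx₀ hx₀u (fun i => amap (C.a i) (C.b i)) L hL
    (by
      intro i j x _ hx _
      exact facet_amap C i j x hx)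
  refine ⟨?_, ?_, ?_⟩
  · -- global map
    classical
    let E : Set E3 := {x | ∃ i, x ∈ cell (C.a i)}
    let F₀ : E3 → E3 := fun x => if h : ∃ i, x ∈ cell (C.a i) then
      amap (C.a h.choose) (C.b h.choose) x else 0
    have hF₀ : ∀ x (h : ∃ i, x ∈ cell (C.a i)), F₀ x = amap (C.a h.choose) (C.b h.choose) x := by
      intro x h
      simp only [F₀, dif_pos h]
    have hlip : LipschitzOnWith L F₀ E := by
      refine LipschitzOnWith.of_dist_le_mul ?_
      intro x hx y hy
      rw [hF₀ x hx, hF₀ y hy]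
      exact hB _ _ x y (fun j _ => hx.choose_spec j) (fun j _ => hy.choose_spec j)
    obtain ⟨F, hF, hFE⟩ := hlip.extend_finite_dimension
    refine ⟨F, _, hF, ?_⟩
    intro i x hx
    have hxE : x ∈ E := ⟨i, hx⟩
    rw [← hFE hxE, hF₀ x hxE, ← dist_le_zero]
    have := hB hxE.choose i x x (fun j _ => hxE.choose_spec j) (fun j _ => hx j)
    simpa using this
  · intro x hx
    obtain ⟨U, hU, hUfin⟩ := hfin x hx
    set T : Set ι := {i | (cell (C.a i) ∩ U).Nonempty} with hT
    have hclosed : IsClosed (⋃ i ∈ T, cell (C.a i)) :=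
      hUfin.isClosed_biUnion fun i _ => isClosed_cell _
    by_contra hcon
    push Not at hcon
    have hxT : x ∈ (⋃ i ∈ T, cell (C.a i))ᶜ := by
      simp only [mem_compl_iff, mem_iUnion, not_exists]
      intro i _ h
      exact hcon i h
    obtain ⟨y, ⟨hyU, hyT⟩, hyS⟩ := exists_generic S hS
      (interior U ∩ (⋃ i ∈ T, cell (C.a i))ᶜ) (isOpen_interior.inter hclosed.isOpen_compl)
      ⟨x, mem_interior_iff_mem_nhds.2 hU, hxT⟩
    obtain ⟨i, hi⟩ := hA y hyS
    apply hyT
    have hc : y ∈ cell (C.a i) := fun j => hi j trivial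
    simp only [mem_iUnion]
    exact ⟨i, ⟨y, hc, interior_subset hyU⟩, hc⟩
  · intro i i' x hpos hc
    exact hCC i i' x (fun j _ => hpos j) (fun j _ => hc j)

end Seg
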